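import Pool.Agent.Helper9.LS5.SheetR

/-!
Project LS5, row FINL: two pieces (the sizes tend to infinity; the final contradiction).
-/

set_option autoImplicit false

open Filter Topology NumberField

namespace Pool.Agent.Helper66.LS5

open Pool.Agent.Helper42.LS Pool.Agent.Helper42.LK Pool.Agent.Helper54.LM Pool.Agent.Helper9.LS5

/-- `HK` is not negative -/
lemma HK_nonneg (hKDF : ST_KDF) (K : Type) [Field K] [NumberField K] {A B : K}
    (hD : dsc A B ≠ 0) : 0 ≤ HK A B := by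
  have h1 : 0 ≤ LD A B := finsum_nonneg fun v => ((hKDF K _ _ hD).2.1 v).1
  have h2 := Height.zero_le_logHeight₁ (6912 * A ^ 3 / dsc A B)
  unfold HK
  unfold dsc at h2
  linarith

/-- canonical heights are not negative -/
lemma can_nonneg' {K : Type} [Field K] [NumberField K] {x : ℕ → K} {e : ℝ} (h : IsCanK x e) :
    0 ≤ e := by
  have h1 := h 1 le_rfl
  rw [Nat.cast_one, one_pow, one_mul] at h1
  exact ge_of_tendsto' h1 fun n => div_nonneg (Height.zero_le_logHeight₁ _) (by positivity)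

/-- the sizes of a sequence of counterexamples tend to infinity -/
lemma finl_tend (hKDF : ST_KDF) (hLREG : ST_LREG) (K : Type) [Field K] [NumberField K] (m : ℕ)
    (hm : 1 ≤ m) (A B : ℕ → K) (X Y : ℕ → (Fin m → ℤ) → K)
    (R : ℕ → Matrix (Fin m) (Fin m) ℝ) (hD : ∀ n, dsc (A n) (B n) ≠ 0)
    (hg : ∀ n, GLat (0 : K) (A n) (B n) (X n) (Y n)) (hs : ∀ n, (R n).IsSymm)
    (hc : ∀ n, ∀ k, k ≠ 0 → IsCanK (fun i : ℕ => X n (i • k)) (qf (R n) k))
    (hlt : ∀ n : ℕ, (R n).det < 1 / ((n : ℝ) + 1) * (1 + HK (A n) (B n)) ^ m) :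
    Tendsto (fun n => HK (A n) (B n)) atTop atTop := by
  obtain ⟨c, hc0, hc'⟩ := hLREG K m hm
  have hH0 : ∀ n, 0 ≤ HK (A n) (B n) := fun n => HK_nonneg hKDF K (hD n)
  rw [tendsto_atTop]
  intro b
  obtain ⟨b', hb'⟩ : ∃ b' : ℝ, b' = max b 0 := ⟨_, rfl⟩
  have hb0 : 0 ≤ b' := by rw [hb']; exact le_max_right _ _
  have hbb : b ≤ b' := by rw [hb']; exact le_max_left _ _
  obtain ⟨δ, hδ⟩ : ∃ δ : ℝ, δ = c * min 1 ((1 + b') ^ gam m) := ⟨_, rfl⟩
  have hδ0 : 0 < δ := by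
    rw [hδ]
    exact mul_pos hc0 (lt_min one_pos (Real.rpow_pos_of_pos (by linarith) _))
  filter_upwards [eventually_ge_atTop ⌈(1 + b') ^ m / δ⌉₊] with n hn
  by_contra hb
  push Not at hb
  have hH := hH0 n
  have hHb : HK (A n) (B n) ≤ b' := hb.le.trans hbb
  have h1 := hc' _ _ (hD n) _ _ _ (hg n) (hs n) (hc n)
  have h2 := hlt n
  have h3 : δ ≤ c * (1 + HK (A n) (B n)) ^ gam m := by
    rw [hδ]
    apply mul_le_mul_of_nonneg_left _ hc0.le
    rcases le_or_gt 0 (gam m) with hg0 | hg0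
    · exact (min_le_left _ _).trans (Real.one_le_rpow (by linarith) hg0)
    · refine (min_le_right _ _).trans ?_
      exact Real.rpow_le_rpow_of_nonpos (by linarith) (by linarith) hg0.le
  have h4 : (1 + b') ^ m / δ ≤ n := (Nat.le_ceil _).trans (by exact_mod_cast hn)
  rw [div_le_iff₀ hδ0] at h4
  have h5 : (0 : ℝ) < (n : ℝ) + 1 := by positivity
  have h6 : δ < 1 / ((n : ℝ) + 1) * (1 + HK (A n) (B n)) ^ m := by linarith
  rw [one_div, inv_mul_eq_div, lt_div_iff₀ h5] at h6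
  have h7 : (1 + HK (A n) (B n)) ^ m ≤ (1 + b') ^ m := by
    apply pow_le_pow_left₀ (by linarith)
    linarith
  nlinarith

/-- the final contradiction -/
lemma finl_end (hLIMD : ST_LIMD) (K : Type) [Field K] [NumberField K] (m : ℕ)
    (M : ℝ) (φ : Ultrafilter ℕ) (hφ : (φ : Filter ℕ) ≤ atTop) (A B : ℕ → K)
    (X : ℕ → (Fin m → ℤ) → K)
    (R : ℕ → Matrix (Fin m) (Fin m) ℝ) (hs : ∀ n, (R n).IsSymm)
    (hc : ∀ n, ∀ k, k ≠ 0 → IsCanK (fun i : ℕ => X n (i • k)) (qf (R n) k))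
    (hM : ∀ n i, R n i i ≤ M * (1 + HK (A n) (B n)))
    (hlt : ∀ n : ℕ, (R n).det < 1 / ((n : ℝ) + 1) * (1 + HK (A n) (B n)) ^ m)
    (hHt : Tendsto (fun n => HK (A n) (B n)) (φ : Filter ℕ) atTop) (c : ℝ) (hc0 : 0 < c)
    (hlow : ∀ k : Fin m → ℤ, k ≠ 0 → ∀ᶠ j in (φ : Filter ℕ), c * HK (A j) (B j) ≤ qf (R j) k) :
    False := by
  obtain ⟨c₁, hc₁, h1⟩ := hLIMD m φ R (fun j => HK (A j) (B j)) c (2 * |M|) hc0 hHt
    (Eventually.of_forall fun j => ⟨hs j, fun k => by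
      by_cases hk : k = 0
      · subst hk
        unfold qf
        simp
      · exact can_nonneg' (hc j k hk)⟩)
    (fun i => by
      filter_upwards [hHt.eventually_ge_atTop 1] with j hj
      refine (hM j i).trans ?_
      have h2 : M * (1 + HK (A j) (B j)) ≤ |M| * (1 + HK (A j) (B j)) :=
        mul_le_mul_of_nonneg_right (le_abs_self M) (by linarith)
      have h3 : |M| * (1 + HK (A j) (B j)) ≤ |M| * (2 * HK (A j) (B j)) :=
        mul_le_mul_of_nonneg_left (by linarith) (abs_nonneg M)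
      linarith)
    hlow
  have h2 : ∀ᶠ j in (φ : Filter ℕ), (⌈2 ^ m / c₁⌉₊ : ℕ) ≤ j := hφ (eventually_ge_atTop _)
  obtain ⟨j, h3, h4, h5⟩ := (h1.and (h2.and (hHt.eventually_ge_atTop 1))).exists
  have h6 := hlt j
  have h7 : (2 : ℝ) ^ m / c₁ ≤ j := (Nat.le_ceil _).trans (by exact_mod_cast h4)
  rw [div_le_iff₀ hc₁] at h7
  have h8 : (0 : ℝ) < (j : ℝ) + 1 := by positivity
  have h9 : c₁ * HK (A j) (B j) ^ m < 1 / ((j : ℝ) + 1) * (1 + HK (A j) (B j)) ^ m := by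
    linarith
  rw [one_div, inv_mul_eq_div, lt_div_iff₀ h8] at h9
  have h10 : (1 + HK (A j) (B j)) ^ m ≤ 2 ^ m * HK (A j) (B j) ^ m := by
    rw [← mul_pow]
    apply pow_le_pow_left₀ (by linarith)
    linarith
  have h11 : (0 : ℝ) < HK (A j) (B j) ^ m := pow_pos (by linarith) m
  have h12 : (2 : ℝ) ^ m * HK (A j) (B j) ^ m ≤ j * c₁ * HK (A j) (B j) ^ m :=
    mul_le_mul_of_nonneg_right h7 h11.le
  nlinarith [mul_pos hc₁ h11]

end Pool.Agent.Helper66.LS5
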