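import Pool.Agent.Helper9.LS5.SheetC
import Pool.Agent.Helper66.LS5.FINLa
import Pool.Agent.Helper54.LM.LREG

/-!
Project LS5, row CONC: the regulator and the concentration of the discriminant.
-/

set_option autoImplicit false

open Filter Topology NumberField

namespace Pool.Agent.Helper66.LS5

open Pool.Agent.Helper42.LS Pool.Agent.Helper42.LK Pool.Agent.Helper54.LM Pool.Agent.Helper9.LS5

/-! ### distance to the nearest integer -/

lemma nd_add_int (t : ℝ) (n : ℤ) : nd (t + n) = nd t := by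
  unfold nd; rw [Int.fract_add_intCast]

lemma nd_neg (t : ℝ) : nd (-t) = nd t := by
  unfold nd
  by_cases h : Int.fract t = 0
  · rw [Int.fract_neg_eq_zero.2 h, h]
  · rw [Int.fract_neg h, min_comm]
    congr 1
    ring

lemma nd_cases (t : ℝ) : ∃ n : ℤ, t = nd t + n ∨ t = -nd t + n := by
  unfold nd
  have h := Int.floor_add_fract t
  rcases min_cases (Int.fract t) (1 - Int.fract t) with ⟨h1, _⟩ | ⟨h1, _⟩
  · exact ⟨⌊t⌋, Or.inl (by rw [h1]; linarith)⟩
  · exact ⟨⌊t⌋ + 1, Or.inr (by rw [h1]; push_cast; linarith)⟩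

lemma Sg_nd {a b : ℝ} (h : Sg a b) : nd a = nd b := by
  obtain ⟨n, rfl | rfl⟩ := h
  · exact nd_add_int b n
  · rw [nd_add_int, nd_neg]

/-! ### pair sums -/

lemma prs_mono {ι : Type} {V : Finset ι} {w : ι → ℝ} {r s : ι → ι → Prop}
    (hw : ∀ v ∈ V, 0 ≤ w v) (h : ∀ v ∈ V, ∀ v' ∈ V, r v v' → s v v') :
    prs V w r ≤ prs V w s := by
  classical
  unfold prs
  refine Finset.sum_le_sum fun v hv => Finset.sum_le_sum fun v' hv' => ?_
  by_cases h1 : r v v'
  · rw [if_pos h1, if_pos (h v hv v' hv' h1)]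
  · rw [if_neg h1]
    split_ifs
    · exact mul_nonneg (hw v hv) (hw v' hv')
    · exact le_rfl

lemma prs_or {ι : Type} {V : Finset ι} {w : ι → ℝ} {r s t : ι → ι → Prop}
    (hw : ∀ v ∈ V, 0 ≤ w v) (h : ∀ v ∈ V, ∀ v' ∈ V, r v v' → s v v' ∨ t v v') :
    prs V w r ≤ prs V w s + prs V w t := by
  classical
  unfold prs
  rw [← Finset.sum_add_distrib]
  refine Finset.sum_le_sum fun v hv => ?_
  rw [← Finset.sum_add_distrib]
  refine Finset.sum_le_sum fun v' hv' => ?_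
  have h0 : 0 ≤ w v * w v' := mul_nonneg (hw v hv) (hw v' hv')
  by_cases h1 : r v v'
  · rw [if_pos h1]
    rcases h v hv v' hv' h1 with h2 | h2
    · rw [if_pos h2]
      split_ifs <;> linarith
    · rw [if_pos h2]
      split_ifs <;> linarith
  · rw [if_neg h1]
    split_ifs <;> linarith

lemma prs_nonneg {ι : Type} {V : Finset ι} {w : ι → ℝ} {r : ι → ι → Prop}
    (hw : ∀ v ∈ V, 0 ≤ w v) : 0 ≤ prs V w r := by
  classical
  unfold prs
  refine Finset.sum_nonneg fun v hv => Finset.sum_nonneg fun v' hv' => ?_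
  split_ifs
  · exact mul_nonneg (hw v hv) (hw v' hv')
  · exact le_rfl

lemma prs_congr {ι : Type} {V : Finset ι} {w w' : ι → ℝ} {r : ι → ι → Prop}
    (hw : ∀ v ∈ V, w v = w' v) : prs V w r = prs V w' r := by
  classical
  unfold prs
  refine Finset.sum_congr rfl fun v hv => Finset.sum_congr rfl fun v' hv' => ?_
  rw [hw v hv, hw v' hv']

lemma prs_subset {ι : Type} {V V' : Finset ι} {w : ι → ℝ} {r : ι → ι → Prop}
    (hw : ∀ v ∈ V', 0 ≤ w v) (h : V ⊆ V') : prs V w r ≤ prs V' w r := by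
  classical
  unfold prs
  have h1 : ∀ v ∈ V', 0 ≤ ∑ v' ∈ V', (if r v v' then w v * w v' else 0) := by
    intro v hv
    refine Finset.sum_nonneg fun v' hv' => ?_
    split_ifs
    · exact mul_nonneg (hw v hv) (hw v' hv')
    · exact le_rfl
  refine le_trans (Finset.sum_le_sum fun v hv => ?_)
    (Finset.sum_le_sum_of_subset_of_nonneg h fun v hv _ => h1 v hv)
  refine Finset.sum_le_sum_of_subset_of_nonneg h fun v' hv' _ => ?_
  split_ifs
  · exact mul_nonneg (hw v (h hv)) (hw v' hv')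
  · exact le_rfl

/-- places outside `V'` have weight `0` -/
lemma prs_support {ι : Type} {V V' : Finset ι} {w : ι → ℝ} {r : ι → ι → Prop}
    (hw : ∀ v, 0 ≤ w v) (h : ∀ v, v ∉ V' → w v = 0) : prs V w r ≤ prs V' w r := by
  classical
  have e : prs V w r = prs (V.filter fun v => v ∈ V') w r := by
    unfold prs
    symm
    refine Finset.sum_subset_zero_on_sdiff (Finset.filter_subset _ _) ?_ ?_
    · intro v hv
      rw [Finset.mem_sdiff, Finset.mem_filter] at hv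
      have h1 : w v = 0 := h v fun h2 => hv.2 ⟨hv.1, h2⟩
      refine Finset.sum_eq_zero fun v' _ => ?_
      rw [h1, zero_mul, ite_self]
    · intro v _
      refine Finset.sum_subset_zero_on_sdiff (Finset.filter_subset _ _) ?_ fun _ _ => rfl
      intro v' hv'
      rw [Finset.mem_sdiff, Finset.mem_filter] at hv'
      have h1 : w v' = 0 := h v' fun h2 => hv'.2 ⟨hv'.1, h2⟩
      rw [h1, mul_zero, ite_self]
  rw [e]
  exact prs_subset (fun v _ => hw v) fun v hv => (Finset.mem_filter.1 hv).2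

/-- the diagonal -/
lemma prs_diag {ι : Type} {V : Finset ι} {w : ι → ℝ} {r : ι → ι → Prop}
    (hw : ∀ v ∈ V, 0 ≤ w v) (h : ∀ v, r v v) : ∑ v ∈ V, w v ^ 2 ≤ prs V w r := by
  classical
  unfold prs
  refine Finset.sum_le_sum fun v hv => ?_
  have h1 : w v ^ 2 = if r v v then w v * w v else 0 := by rw [if_pos (h v)]; ring
  rw [h1]
  refine Finset.single_le_sum (f := fun v' => if r v v' then w v * w v' else 0)
    (fun v' hv' => ?_) hv
  show 0 ≤ if r v v' then w v * w v' else 0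
  split_ifs
  · exact mul_nonneg (hw v hv) (hw v' hv')
  · exact le_rfl

/-- the relation `v = v'` -/
lemma prs_eq_le {ι : Type} {V : Finset ι} {w : ι → ℝ} {r : ι → ι → Prop}
    (h : ∀ v v', r v v' → v = v') : prs V w r ≤ ∑ v ∈ V, w v ^ 2 := by
  classical
  unfold prs
  refine Finset.sum_le_sum fun v hv => ?_
  have h1 : ∀ v' ∈ V, (if r v v' then w v * w v' else 0) ≤ if v = v' then w v ^ 2 else 0 := by
    intro v' _
    by_cases h2 : r v v'
    · have h3 := h v v' h2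
      subst h3
      rw [if_pos h2, if_pos rfl]
      exact le_of_eq (by ring)
    · rw [if_neg h2]
      split_ifs
      · exact sq_nonneg _
      · exact le_rfl
  refine (Finset.sum_le_sum h1).trans ?_
  rw [Finset.sum_ite_eq, if_pos hv]

lemma prs_disjSum {α β : Type} {S : Finset α} {U : Finset β} {a : α → ℝ} {b : β → ℝ}
    {R : α ⊕ β → α ⊕ β → Prop} (ha : ∀ v ∈ S, 0 ≤ a v) (hb : ∀ u ∈ U, 0 ≤ b u)
    (hR : ∀ u, R (Sum.inr u) (Sum.inr u)) :
    prs S a (fun v v' => R (Sum.inl v) (Sum.inl v')) + ∑ u ∈ U, b u ^ 2 ≤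
      prs (S.disjSum U) (Sum.elim a b) R := by
  classical
  have h1 : ∀ u ∈ U, b u ^ 2 ≤ ∑ u' ∈ U, if R (Sum.inr u) (Sum.inr u') then b u * b u' else 0 := by
    intro u hu
    have h1 : b u ^ 2 = if R (Sum.inr u) (Sum.inr u) then b u * b u else 0 := by
      rw [if_pos (hR u)]; ring
    rw [h1]
    refine Finset.single_le_sum
      (f := fun u' => if R (Sum.inr u) (Sum.inr u') then b u * b u' else 0) (fun u' hu' => ?_) hu
    show 0 ≤ if R (Sum.inr u) (Sum.inr u') then b u * b u' else 0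
    split_ifs
    · exact mul_nonneg (hb u hu) (hb u' hu')
    · exact le_rfl
  unfold prs
  rw [Finset.sum_disjSum]
  simp only [Finset.sum_disjSum, Sum.elim_inl, Sum.elim_inr]
  refine add_le_add (Finset.sum_le_sum fun v hv => ?_) (Finset.sum_le_sum fun u hu => ?_)
  · refine le_add_of_nonneg_right (Finset.sum_nonneg fun u hu => ?_)
    split_ifs
    · exact mul_nonneg (ha v hv) (hb u hu)
    · exact le_rfl
  · refine (h1 u hu).trans (le_add_of_nonneg_left (Finset.sum_nonneg fun v hv => ?_))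
    split_ifs
    · exact mul_nonneg (hb u hu) (ha v hv)
    · exact le_rfl

/-- the comparison of the two pair sums -/
lemma conc_prs (hS : ST_SGN) {K : Type} [Field K] [NumberField K] {A B : K} {m : ℕ}
    {x : Fin m → K} {C₀ : ℝ} {T₀ : Finset (FinitePlace K)} {wf : FinitePlace K → ℝ}
    {tf : FinitePlace K → Fin m → ℝ}
    (hdl : ∀ v : FinitePlace K, 0 ≤ dl (fun z : K => v z) A B)
    (hT : ∀ v : FinitePlace K, v ∉ T₀ → dl (fun z : K => v z) A B = 0)
    (hw : ∀ v, 0 ≤ wf v) (hC : ∑ v ∈ T₀, |wf v - dl (fun z : K => v z) A B| ≤ C₀)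
    (hex : ∀ v : FinitePlace K, v 2 = 1 → v 3 = 1 → wf v = dl (fun z : K => v z) A B ∧
      ∀ i, Sg (tf v i) (tz (fun z : K => v z) A B (x i))) (T : Finset (FinitePlace K)) :
    prs T (fun v => dl (fun z : K => v z) A B) (Sm A B x) ≤
      (2 + 2 ^ m) * prs T₀ wf (fun v v' => ∀ i, ∃ n : ℤ, tf v i = tf v' i + n) + 2 * C₀ ^ 2 := by
  classical
  obtain ⟨δ, hδ⟩ : ∃ δ : FinitePlace K → ℝ, δ = fun v : FinitePlace K => dl (fun z : K => v z) A B :=
    ⟨_, rfl⟩
  have hδv : ∀ v : FinitePlace K, dl (fun z : K => v z) A B = δ v := fun v => by rw [hδ]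
  simp only [hδv] at hdl hT hC hex
  rw [← hδ]
  obtain ⟨f, hf⟩ : ∃ f : FinitePlace K → (Fin m → ℝ), f = fun v i => nd (tf v i) := ⟨_, rfl⟩
  obtain ⟨σ, hσ⟩ : ∃ σ : FinitePlace K → (Fin m → Bool),
    σ = fun v i => decide (∃ n : ℤ, tf v i = nd (tf v i) + n) := ⟨_, rfl⟩
  obtain ⟨V, hV⟩ : ∃ V : Finset (FinitePlace K), V = T₀.filter fun v => v 2 = 1 ∧ v 3 = 1 :=
    ⟨_, rfl⟩
  obtain ⟨E, hE⟩ : ∃ E : FinitePlace K → FinitePlace K → Prop,
    E = fun v v' => ∀ i, ∃ n : ℤ, tf v i = tf v' i + n := ⟨_, rfl⟩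
  rw [← hE]
  have h1 : prs T δ (Sm A B x) ≤ prs T₀ δ (Sm A B x) := prs_support hdl hT
  have h2 : prs T₀ δ (Sm A B x) ≤ prs T₀ δ (fun v v' => v = v') +
      prs T₀ δ (fun v v' => (v 2 = 1 ∧ v 3 = 1) ∧ (v' 2 = 1 ∧ v' 3 = 1) ∧ f v = f v') := by
    refine prs_or (fun v _ => hdl v) fun v _ v' _ h => ?_
    rcases h with h | ⟨a, b, c, d, h⟩
    · exact Or.inl h
    · refine Or.inr ⟨⟨a, b⟩, ⟨c, d⟩, ?_⟩
      rw [hf]
      funext i
      show nd (tf v i) = nd (tf v' i)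
      rw [Sg_nd ((hex v a b).2 i), Sg_nd (h i), Sg_nd ((hex v' c d).2 i)]
  have h3 : prs T₀ δ (fun v v' => v = v') ≤ ∑ v ∈ T₀, δ v ^ 2 := prs_eq_le fun v v' h => h
  have h4 : ∑ v ∈ T₀, δ v ^ 2 ≤ 2 * ∑ v ∈ T₀, wf v ^ 2 + 2 * C₀ ^ 2 := by
    have h5 : ∑ v ∈ T₀, |wf v - δ v| ^ 2 ≤ C₀ ^ 2 := by
      refine le_trans (Finset.sum_sq_le_sq_sum_of_nonneg fun v _ => abs_nonneg _) ?_
      exact pow_le_pow_left₀ (Finset.sum_nonneg fun v _ => abs_nonneg _) hC 2
    have h6 : ∀ v ∈ T₀, δ v ^ 2 ≤ 2 * wf v ^ 2 + 2 * |wf v - δ v| ^ 2 := by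
      intro v _
      rw [sq_abs]
      nlinarith [sq_nonneg (2 * wf v - δ v)]
    refine (Finset.sum_le_sum h6).trans ?_
    rw [Finset.sum_add_distrib, ← Finset.mul_sum, ← Finset.mul_sum]
    linarith
  have h5 : ∑ v ∈ T₀, wf v ^ 2 ≤ prs T₀ wf E :=
    prs_diag (fun v _ => hw v) fun v => by rw [hE]; exact fun i => ⟨0, by simp⟩
  have h6 : prs T₀ δ (fun v v' => (v 2 = 1 ∧ v 3 = 1) ∧ (v' 2 = 1 ∧ v' 3 = 1) ∧ f v = f v') ≤
      prs V wf (fun v v' => f v = f v') := by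
    have e : prs V wf (fun v v' => f v = f v') = prs V δ (fun v v' => f v = f v') := by
      refine prs_congr fun v hv => ?_
      rw [hV, Finset.mem_filter] at hv
      exact (hex v hv.2.1 hv.2.2).1
    rw [e]
    unfold prs
    rw [hV, Finset.sum_filter]
    refine Finset.sum_le_sum fun v _ => ?_
    by_cases hv : v 2 = 1 ∧ v 3 = 1
    · rw [if_pos hv, Finset.sum_filter]
      refine Finset.sum_le_sum fun v' _ => ?_
      by_cases hv' : v' 2 = 1 ∧ v' 3 = 1
      · rw [if_pos hv']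
        by_cases hff : f v = f v'
        · rw [if_pos ⟨hv, hv', hff⟩, if_pos hff]
        · rw [if_neg fun h => hff h.2.2, if_neg hff]
      · rw [if_neg hv', if_neg fun h => hv' h.2.1]
    · rw [if_neg hv]
      refine le_of_eq (Finset.sum_eq_zero fun v' _ => ?_)
      rw [if_neg fun h => hv h.1]
  have h7 := hS (FinitePlace K) (Fin m → ℝ) (Fin m → Bool) V wf f σ fun v _ => hw v
  have h8 : (Fintype.card (Fin m → Bool) : ℝ) = 2 ^ m := by
    rw [Fintype.card_fun, Fintype.card_bool, Fintype.card_fin]; push_cast; rfl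
  rw [h8] at h7
  have h9 : prs V wf (fun v v' => f v = f v' ∧ σ v = σ v') ≤ prs V wf E := by
    refine prs_mono (fun v _ => hw v) fun v _ v' _ h => ?_
    obtain ⟨ha, hb⟩ := h
    rw [hE]
    intro i
    have ha' : nd (tf v i) = nd (tf v' i) := by
      have := congrFun ha i
      rw [hf] at this
      exact this
    have hb' : (∃ n : ℤ, tf v i = nd (tf v i) + n) ↔ (∃ n : ℤ, tf v' i = nd (tf v' i) + n) := by
      have := congrFun hb i
      rw [hσ] at this
      exact decide_eq_decide.1 this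
    by_cases hc : ∃ n : ℤ, tf v i = nd (tf v i) + n
    · obtain ⟨n, hn⟩ := hc
      obtain ⟨n', hn'⟩ := hb'.1 ⟨n, hn⟩
      exact ⟨n - n', by push_cast; linarith⟩
    · have hc' : ¬ ∃ n : ℤ, tf v' i = nd (tf v' i) + n := fun h => hc (hb'.2 h)
      obtain ⟨n, hn⟩ := nd_cases (tf v i)
      obtain ⟨n', hn'⟩ := nd_cases (tf v' i)
      have hn2 := hn.resolve_left fun h => hc ⟨n, h⟩
      have hn2' := hn'.resolve_left fun h => hc' ⟨n', h⟩
      exact ⟨n - n', by push_cast; linarith⟩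
  have h10 : prs V wf E ≤ prs T₀ wf E :=
    prs_subset (fun v _ => hw v) (by rw [hV]; exact Finset.filter_subset _ _)
  have h11 : (2 : ℝ) ^ m * prs V wf (fun v v' => f v = f v' ∧ σ v = σ v') ≤
      2 ^ m * prs T₀ wf E := mul_le_mul_of_nonneg_left (h9.trans h10) (by positivity)
  linarith

theorem CONC (hMT : ST_LMT3) (hF : ST_CFIN) (hS : ST_SGN) (hREG : ST_LREG) (hDF : ST_KDF) :
    ST_CONC := by
  classical
  intro K _ _ m hm
  obtain ⟨C₀, hC₀, hM⟩ := hMT K m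
  obtain ⟨c₀, hc₀, hR⟩ := hREG K m hm
  obtain ⟨N, hN⟩ : ∃ N : ℝ, N = (Fintype.card (InfinitePlace K) : ℝ) := ⟨_, rfl⟩
  have hN0 : 0 ≤ N := by rw [hN]; exact Nat.cast_nonneg _
  obtain ⟨D, hD⟩ : ∃ D : ℝ, D = 3 + 2 ^ m + 2 * C₀ ^ 2 + 2 * C₀ + N := ⟨_, rfl⟩
  have h2m : (0 : ℝ) < 2 ^ m := by positivity
  have hC2 : 0 ≤ C₀ ^ 2 := sq_nonneg _
  obtain ⟨c, hc, hfin⟩ := hF m hm D c₀ (by rw [hD]; linarith) hc₀
  refine ⟨c, hc, ?_⟩
  intro A B hAB X Y G hg hsymm hcan T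
  obtain ⟨T₀, wf, tf, ti, hT₀, hw0, hwC, hex, hmain⟩ := hM A B hAB X Y (qf G) hg hcan
  obtain ⟨-, hloc, -, hH1, hH2⟩ := hDF K A B hAB
  have hdl : ∀ v : FinitePlace K, 0 ≤ dl (fun z : K => v z) A B := fun v => (hloc v).1
  have hHK0 : 0 ≤ HK A B := HK_nonneg hDF K hAB
  have hreg := hR A B hAB X Y G hg hsymm hcan
  have hpow : 0 < (1 + HK A B) ^ gam m := Real.rpow_pos_of_pos (by linarith) _
  have hdet : 0 < G.det := lt_of_lt_of_le (mul_pos hc₀ hpow) hreg
  -- the form is positive definite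
  have hpos : ∀ k : Fin m → ℤ, 0 ≤ qf G k := by
    intro k
    by_cases hk : k = 0
    · subst hk
      unfold qf
      simp
    · exact can_nonneg' (hcan k hk)
  have hpd : G.PosDef := (LREG_psd hsymm hpos).posDef_iff_det_ne_zero.2 hdet.ne'
  -- the archimedean weights
  obtain ⟨a, ha⟩ : ∃ a : InfinitePlace K → ℝ, a = fun w : InfinitePlace K =>
    (w.mult : ℝ) * max 0 (Real.log (w (6912 * A ^ 3 / dsc A B))) := ⟨_, rfl⟩
  have ha0 : ∀ w, 0 ≤ a w := fun w => by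
    rw [ha]; exact mul_nonneg (Nat.cast_nonneg _) (le_max_left _ _)
  have harw : arw A B = ∑ w, a w := by rw [ha]; rfl
  have hsa : ∑ w : InfinitePlace K, (w.mult : ℝ) *
      max 0 (Real.log (w (6912 * A ^ 3 / dsc A B))) = ∑ w, a w := by rw [ha]
  have hLD : LD A B = ∑ v ∈ T₀, dl (fun z : K => v z) A B := by
    unfold LD
    apply finsum_eq_sum_of_support_subset
    intro v hv
    by_contra h'
    exact hv (hT₀ v (by simpa using h')).2.2
  have habs : |∑ v ∈ T₀, wf v - LD A B| ≤ C₀ := by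
    rw [hLD, ← Finset.sum_sub_distrib]
    exact (Finset.abs_sum_le_sum_abs _ _).trans hwC
  have habs' := abs_le.1 habs
  obtain ⟨w, hw⟩ : ∃ w : FinitePlace K ⊕ InfinitePlace K → ℝ, w = Sum.elim wf a := ⟨_, rfl⟩
  obtain ⟨t, ht⟩ : ∃ t : FinitePlace K ⊕ InfinitePlace K → Fin m → ℝ, t = Sum.elim tf ti :=
    ⟨_, rfl⟩
  have hsw : ∑ v ∈ T₀.disjSum (Finset.univ : Finset (InfinitePlace K)), w v =
      ∑ v ∈ T₀, wf v + ∑ u, a u := by
    rw [Finset.sum_disjSum, hw]
    simp only [Sum.elim_inl, Sum.elim_inr]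
  have hw' : ∀ v, 0 ≤ w v := by
    rw [hw]
    rintro (v | u)
    · exact hw0 v
    · exact ha0 u
  have hsa0 : 0 ≤ ∑ u, a u := Finset.sum_nonneg fun u _ => ha0 u
  rw [hsa] at hH1 hH2
  have hrho : rho A B (fun i => X (Pi.single i 1)) T * (1 + HK A B) ^ 2 =
      1 + arw A B ^ 2 + prs T (fun v => dl (fun z : K => v z) A B)
        (Sm A B fun i => X (Pi.single i 1)) := by
    unfold rho
    rw [div_mul_cancel₀]
    have : (0 : ℝ) < 1 + HK A B := by linarith
    positivity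
  have hprs0 : 0 ≤ prs T (fun v => dl (fun z : K => v z) A B)
      (Sm A B fun i => X (Pi.single i 1)) := prs_nonneg fun v _ => hdl v
  have hrho0 : 0 ≤ rho A B (fun i => X (Pi.single i 1)) T := by
    unfold rho
    have := sq_nonneg (arw A B)
    exact div_nonneg (by linarith) (sq_nonneg _)
  refine hfin G (FinitePlace K ⊕ InfinitePlace K)
    (T₀.disjSum (Finset.univ : Finset (InfinitePlace K))) w t (HK A B)
    (rho A B (fun i => X (Pi.single i 1)) T) hpd hHK0 hrho0 (fun v _ => hw' v) ?_ ?_ ?_ ?_ hreg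
  · rw [hsw, hD]
    nlinarith [habs'.1, habs'.2]
  · rw [hsw, hD]
    nlinarith [habs'.1, habs'.2]
  · rw [hrho]
    have h1 := conc_prs hS (x := fun i => X (Pi.single i 1)) hdl (fun v hv => (hT₀ v hv).2.2)
      hw0 hwC hex T
    have h2 := prs_disjSum (S := T₀) (U := (Finset.univ : Finset (InfinitePlace K))) (a := wf)
      (b := a) (R := fun v v' => ∀ i, ∃ n : ℤ, t v i = t v' i + n) (fun v _ => hw0 v)
      (fun u _ => ha0 u) (fun u i => ⟨0, by simp⟩)
    have h3 : arw A B ^ 2 ≤ N * ∑ u, a u ^ 2 := by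
      rw [harw, hN]
      have := sq_sum_le_card_mul_sum_sq (s := (Finset.univ : Finset (InfinitePlace K))) (f := a)
      rwa [Finset.card_univ] at this
    have h4 : prs T₀ wf (fun v v' => ∀ i, ∃ n : ℤ, t (Sum.inl v) i = t (Sum.inl v') i + n) =
        prs T₀ wf (fun v v' => ∀ i, ∃ n : ℤ, tf v i = tf v' i + n) := by rw [ht]; rfl
    rw [h4, ← hw] at h2
    obtain ⟨p, hp⟩ : ∃ p : ℝ, p = prs T₀ wf (fun v v' => ∀ i, ∃ n : ℤ, tf v i = tf v' i + n) :=
      ⟨_, rfl⟩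
    obtain ⟨q, hq⟩ : ∃ q : ℝ, q = ∑ u, a u ^ 2 := ⟨_, rfl⟩
    obtain ⟨P, hP⟩ : ∃ P : ℝ, P = prs (T₀.disjSum (Finset.univ : Finset (InfinitePlace K))) w
      (fun v v' => ∀ i, ∃ n : ℤ, t v i = t v' i + n) := ⟨_, rfl⟩
    rw [← hp] at h1 h2
    rw [← hq] at h2 h3
    rw [← hP] at h2 ⊢
    have hp0 : 0 ≤ p := by rw [hp]; exact prs_nonneg fun v _ => hw0 v
    have hq0 : 0 ≤ q := by rw [hq]; exact Finset.sum_nonneg fun u _ => sq_nonneg _
    have h5 : (2 + 2 ^ m) * p ≤ D * p := mul_le_mul_of_nonneg_right (by rw [hD]; linarith) hp0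
    have h6 : N * q ≤ D * q := mul_le_mul_of_nonneg_right (by rw [hD]; nlinarith) hq0
    have hD0 : 0 ≤ D := by rw [hD]; nlinarith
    have h7 : D * (p + q) ≤ D * P := mul_le_mul_of_nonneg_left h2 hD0
    have h8 : 1 + 2 * C₀ ^ 2 ≤ D := by rw [hD]; linarith
    linarith
  · intro k hk
    have h1 := hmain k hk
    rw [Finset.sum_disjSum, hw, ht]
    simp only [Sum.elim_inl, Sum.elim_inr]
    have h2 : C₀ ≤ D := by rw [hD]; linarith
    have h3 : ∑ u : InfinitePlace K, a u * B2 (pr k (ti u)) =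
        ∑ w : InfinitePlace K, (w.mult : ℝ) * max 0 (Real.log (w (6912 * A ^ 3 / dsc A B))) *
        B2 (pr k (ti w)) := by rw [ha]
    rw [h3]
    linarith

end Pool.Agent.Helper66.LS5
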