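import Pool.Agent.Helper66.LS5.ZIM
import Pool.Agent.Helper99.LK.KSM

/-!
Project LS5, row HTZ: the height of `zz`.
-/

set_option autoImplicit false

open NumberField Height Filter Topology

namespace Pool.Agent.Helper66.LS5

open Pool.Agent.Helper42.LS Pool.Agent.Helper42.LK Pool.Agent.Helper9.LS5

/-- (HTZ) -/
theorem HTZ (hZIM : ST_ZIM) (hKRM : ST_KRM) (hKSC : ST_KSC) (hKDF : ST_KDF) : ST_HTZ := by
  intro K _ _
  obtain ⟨C₁, hC₁0, hC₁⟩ := hZIM K
  obtain ⟨C₂, hC₂⟩ := hKRM K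
  have hc0 : 0 ≤ (totalWeight K : ℝ) * Real.log 2 :=
    mul_nonneg (Nat.cast_nonneg _) (Real.log_nonneg (by norm_num))
  have h30 := zero_le_logHeight₁ (3 : K)
  have h20 := zero_le_logHeight₁ (2 : K)
  set c₀ : ℝ := totalWeight K * Real.log 2 + logHeight₁ (3 : K) + logHeight₁ (2 : K) with hc₀
  have hc₀0 : 0 ≤ c₀ := by linarith
  refine ⟨c₀ + (1 + C₁) * (1 + |C₂|) + C₁ + 1, by positivity, fun A B hD hB x y e hxy he => ?_⟩
  obtain ⟨u, l, hu, hl, hfin, hinf, hlog⟩ := hC₂ A B hD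
  have hd : 0 < (Module.finrank ℚ K : ℝ) := by
    exact_mod_cast Module.finrank_pos
  have hHK : 0 ≤ HK A B := by
    unfold HK LD
    have h1 : 0 ≤ ∑ᶠ v : FinitePlace K, dl (fun x : K => v x) A B :=
      finsum_nonneg fun v => ((hKDF K A B hD).2.1 v).1
    have h2 := zero_le_logHeight₁ (6912 * A ^ 3 / (4 * A ^ 3 + 27 * B ^ 2))
    linarith
  have he0 : 0 ≤ e := by
    have h1 := he 1 le_rfl
    simp only [one_mul, Nat.cast_one, one_pow] at h1
    exact ge_of_tendsto' h1 fun n => div_nonneg (zero_le_logHeight₁ _) (by positivity)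
  set M : ℝ := max 0 (Real.log l) with hM
  have hM0 : 0 ≤ M := le_max_left _ _
  have hdM : 12 * (Module.finrank ℚ K : ℝ) * M ≤ HK A B + |C₂| := by
    rcases le_total 0 (Real.log l) with h | h
    · rw [hM, max_eq_right h]
      exact hlog.trans (by linarith [le_abs_self C₂])
    · rw [hM, max_eq_left h, mul_zero]
      positivity
  have hlogw : ∀ (w : InfinitePlace K) (z : K) (n : ℕ), w z ≤ l ^ n →
      Real.log (w z) ≤ n * M := by
    intro w z n h
    by_cases hz : w z = 0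
    · rw [hz, Real.log_zero]
      positivity
    · have h1 : Real.log (w z) ≤ Real.log (l ^ n) :=
        Real.log_le_log (lt_of_le_of_ne (apply_nonneg w z) (Ne.symm hz)) h
      rw [Real.log_pow] at h1
      exact h1.trans (mul_le_mul_of_nonneg_left (le_max_right _ _) (Nat.cast_nonneg n))
  have hA : logHeight₁ (u ^ 4 * A) ≤ Module.finrank ℚ K * (4 * M) := by
    apply KSM_height _ _ (fun v => (hfin v).1) _ (by positivity)
    intro w
    have h1 := hlogw w _ 4 (hinf w).1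
    exact_mod_cast h1
  have hB' : logHeight₁ (u ^ 6 * B) ≤ Module.finrank ℚ K * (6 * M) := by
    apply KSM_height _ _ (fun v => (hfin v).2) _ (by positivity)
    intro w
    have h1 := hlogw w _ 6 (hinf w).2
    exact_mod_cast h1
  have hD' : dsc (u ^ 4 * A) (u ^ 6 * B) ≠ 0 := by
    have h1 : dsc (u ^ 4 * A) (u ^ 6 * B) = u ^ 12 * dsc A B := by
      unfold dsc
      ring
    rw [h1]
    exact mul_ne_zero (pow_ne_zero 12 hu) hD
  have hx := hC₁ (u ^ 4 * A) (u ^ 6 * B) hD' (fun k => u ^ 2 * x k) (fun k => u ^ 3 * y k) e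
    (hKSC K A B u x y hu hxy) (KSM_can x u hu e he)
  have hz : zz A B (x 1) = 3 + 2 * ((u ^ 4 * A) * ((u ^ 2 * x 1) * (u ^ 6 * B)⁻¹)) := by
    unfold zz
    field_simp
  rw [hz]
  have g1 := logHeight₁_add_le (3 : K) (2 * ((u ^ 4 * A) * ((u ^ 2 * x 1) * (u ^ 6 * B)⁻¹)))
  have g2 := logHeight₁_mul_le (2 : K) ((u ^ 4 * A) * ((u ^ 2 * x 1) * (u ^ 6 * B)⁻¹))
  have g3 := logHeight₁_mul_le (u ^ 4 * A) ((u ^ 2 * x 1) * (u ^ 6 * B)⁻¹)
  have g4 := logHeight₁_mul_le (u ^ 2 * x 1) (u ^ 6 * B)⁻¹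
  rw [logHeight₁_inv] at g4
  have hab : logHeight₁ (u ^ 4 * A) + logHeight₁ (u ^ 6 * B) ≤ HK A B + |C₂| := by
    have h1 : (Module.finrank ℚ K : ℝ) * (4 * M) + Module.finrank ℚ K * (6 * M) ≤
        12 * (Module.finrank ℚ K : ℝ) * M := by
      have h2 : 0 ≤ (Module.finrank ℚ K : ℝ) * M := by positivity
      linarith
    linarith
  have k1 : C₁ * (1 + logHeight₁ (u ^ 4 * A) + logHeight₁ (u ^ 6 * B)) ≤
      C₁ * (1 + (HK A B + |C₂|)) := by
    refine mul_le_mul_of_nonneg_left ?_ hC₁0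
    linarith
  have k2 : logHeight₁ (3 + 2 * ((u ^ 4 * A) * ((u ^ 2 * x 1) * (u ^ 6 * B)⁻¹))) ≤
      c₀ + (HK A B + |C₂|) + (e + C₁ * (1 + (HK A B + |C₂|))) := by
    linarith
  refine k2.trans ?_
  have h5 : 0 ≤ |C₂| := abs_nonneg _
  have m1 : 0 ≤ c₀ * HK A B := by positivity
  have m2 : 0 ≤ c₀ * e := by positivity
  have m3 : 0 ≤ (1 + C₁) * |C₂| * HK A B := by positivity
  have m4 : 0 ≤ (1 + C₁) * (1 + |C₂|) * e := by positivity
  have m5 : 0 ≤ C₁ * HK A B := by positivity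
  have m6 : 0 ≤ C₁ * e := by positivity
  have m7 : (c₀ + (1 + C₁) * (1 + |C₂|) + C₁ + 1) * (1 + HK A B + e) -
      (c₀ + (HK A B + |C₂|) + (e + C₁ * (1 + (HK A B + |C₂|)))) =
      c₀ * HK A B + c₀ * e + (1 + C₁) * |C₂| * HK A B + (1 + C₁) * (1 + |C₂|) * e +
      C₁ * HK A B + C₁ * e + (1 + C₁) + 1 + HK A B := by
    ring
  linarith

end Pool.Agent.Helper66.LS5
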