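import Pool.Agent.Helper9.LS5.SheetR
import Pool.Agent.Helper11.LM.LMT

/-!
Project LS5, row LMT2: the master inequality for several points with explicit components.
-/

set_option autoImplicit false

open Filter Topology NumberField

namespace Pool.Agent.Helper66.LS5

open Pool.Agent.Helper42.LS Pool.Agent.Helper42.LK Pool.Agent.Helper54.LM Pool.Agent.Helper9.LS5

/-- local package at a place of a number field, explicit away from 6 -/
lemma LMT_local2 (hLB : ST_LLB2) (hLS : ST_LLS) (hFP : ST_KFP) (K : Type) [Field K]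
    [NumberField K]
    (v : FinitePlace K) : ∃ C : ℝ, 0 ≤ C ∧ ∀ A B : K, dsc A B ≠ 0 →
    ∀ (m : ℕ) (X Y : (Fin m → ℤ) → K), GLat (0 : K) A B X Y → ∀ ε : ℝ, ε = (open Classical in
      if v 2 = 1 ∧ v 3 = 1 then 0 else C) →
    ∃ (w : ℝ) (t : Fin m → ℝ), 0 ≤ w ∧ |w - dl (fun x : K => v x) A B| ≤ ε ∧
    (v 2 = 1 → v 3 = 1 → w = dl (fun x : K => v x) A B ∧
      (IsMul (fun z : K => v z) A B → A ≠ 0 ∧ B ≠ 0 ∧ 0 < Real.log (v (jK A B)) ∧
        dl (fun z : K => v z) A B = Real.log (v (jK A B))) ∧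
      ∀ i, Sg (t i) (tz (fun z : K => v z) A B (X (Pi.single i 1)))) ∧
    ∀ k : Fin m → ℤ, k ≠ 0 → ∃ U : ℕ → ℝ,
    (∀ n : ℕ, 1 ≤ n → 4 * U n - ε ≤ U (2 * n) + Real.log (v (4 * cu A B (X (n • k))))) ∧
    (∃ C : ℝ, ∀ n : ℕ, 1 ≤ n → U n ≤ Real.log (max (v (X (n • k))) 1) + C) ∧
    (∀ n : ℕ, 1 ≤ n → w * B2 (n * pr k t) + 1 / 6 * Real.log (v (dsc A B)) - ε ≤
      U (12 * n)) := by
  obtain ⟨V, hV, hq⟩ := hFP K v
  have hfun : V.nr = fun x : K => v x := funext hV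
  obtain ⟨C, hC, hloc⟩ := hLS K V
  refine ⟨C, hC, ?_⟩
  intro A B hD m X Y hg ε hε
  classical
  by_cases h6 : v 2 = 1 ∧ v 3 = 1
  · have hε0 : ε = 0 := by rw [hε, if_pos h6]
    have h2 : V.ord 2 = 0 := (V.nr_eq_one_iff (by norm_num)).1 (by rw [hV]; exact h6.1)
    have h3 : V.ord 3 = 0 := (V.nr_eq_one_iff (by norm_num)).1 (by rw [hV]; exact h6.2)
    obtain ⟨t, h0, hmul, hsg, hU⟩ := hLB K V h2 h3 A B hD m X Y hg
    rw [hfun] at h0 hmul hsg
    subst hε0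
    refine ⟨dl (fun x : K => v x) A B, t, h0, by simp, fun _ _ => ⟨rfl, hmul, hsg⟩, ?_⟩
    intro k hk
    obtain ⟨U, hU1, hU2, hU3⟩ := hU k hk
    rw [hfun] at hU3
    simp only [hV] at hU1 hU2 hU3
    refine ⟨U, ?_, hU2, ?_⟩
    · intro n hn; have := hU1 n hn; linarith
    · intro n hn; have := hU3 n hn; linarith
  · have hε0 : ε = C := by rw [hε, if_neg h6]
    obtain ⟨w, t, N, h0, hw, hN, hint, hle, hU⟩ := hloc A B hD m X Y hg
    rw [hfun] at hw
    rw [hε0]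
    refine ⟨w, t, h0, hw, fun h2 h3 => absurd ⟨h2, h3⟩ h6, ?_⟩
    intro k hk
    obtain ⟨U, hU1, hU2, hU3⟩ := hU k hk
    simp only [hV] at hU1 hU2 hU3
    exact ⟨U, hU1, hU2, hU3⟩

theorem LMT2 (hLB : ST_LLB2) (hLS : ST_LLS) (hCX : ST_LCX) (hSQ : ST_LSQ) (hMAP : ST_LMAP)
    (hGO : ST_KGO) (hPOT : ST_KPOT) (hDF : ST_KDF) (hFP : ST_KFP) : ST_LMT2 := by
  classical
  intro K _ _ m
  obtain ⟨CX, hCX0, hCX⟩ := LMT_arch hCX hMAP m
  -- the places above 2 and 3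
  have h6fin : {v : FinitePlace K | ¬ (v 2 = 1 ∧ v 3 = 1)}.Finite := by
    have h := (hDF K (0 : K) (1 : K) (by unfold dsc; norm_num)).1
    refine h.subset ?_
    intro v hv h'
    exact hv ⟨h'.1, h'.2.1⟩
  obtain ⟨S6, hS6⟩ : ∃ S6 : Finset (FinitePlace K), ∀ v, v ∈ S6 ↔ ¬ (v 2 = 1 ∧ v 3 = 1) :=
    ⟨h6fin.toFinset, fun v => by rw [Set.Finite.mem_toFinset]; rfl⟩
  choose Cv hCv0 hCv using LMT_local2 hLB hLS hFP K
  obtain ⟨d, hd⟩ : ∃ d : ℝ, d = (Module.finrank ℚ K : ℝ) := ⟨_, rfl⟩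
  have hd0 : 0 ≤ d := by rw [hd]; exact Nat.cast_nonneg _
  obtain ⟨C1, hC1⟩ : ∃ C1 : ℝ, C1 = ∑ v ∈ S6, Cv v := ⟨_, rfl⟩
  have hC10 : 0 ≤ C1 := by rw [hC1]; exact Finset.sum_nonneg fun v _ => hCv0 v
  obtain ⟨C3, hC3⟩ : ∃ C3 : ℝ, C3 = (Fintype.card (InfinitePlace K) : ℝ) := ⟨_, rfl⟩
  have hC30 : 0 ≤ C3 := by rw [hC3]; exact Nat.cast_nonneg _
  obtain ⟨C4, hC4⟩ : ∃ C4 : ℝ, C4 = (S6.card : ℝ) := ⟨_, rfl⟩
  have hC40 : 0 ≤ C4 := by rw [hC4]; exact Nat.cast_nonneg _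
  obtain ⟨C₀, hC₀⟩ : ∃ C₀ : ℝ, C₀ = 2 * C1 + C3 + C4 + 2 * (d * CX) + 1 := ⟨_, rfl⟩
  have hdCX : 0 ≤ d * CX := mul_nonneg hd0 hCX0
  have hC₀0 : 0 ≤ C₀ := by rw [hC₀]; linarith
  refine ⟨C₀, hC₀0, ?_⟩
  intro A B hD X Y e hg he
  obtain ⟨hfin, hloc, hmulfin, hH1, hH2⟩ := hDF K A B hD
  obtain ⟨S, hS⟩ : ∃ S : Finset (FinitePlace K), ∀ v, v ∈ S ↔
      ¬ (v 2 = 1 ∧ v 3 = 1 ∧ v A ≤ 1 ∧ v B ≤ 1 ∧ v (dsc A B) = 1) :=
    ⟨hfin.toFinset, fun v => by rw [Set.Finite.mem_toFinset]; rfl⟩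
  have hS6S : S6 ⊆ S := by
    intro v hv
    rw [hS6] at hv
    rw [hS]
    exact fun h' => hv ⟨h'.1, h'.2.1⟩
  have hSD : ∀ v : FinitePlace K, v ∉ S → v (dsc A B) = 1 := by
    intro v hv
    rw [hS, not_not] at hv
    exact hv.2.2.2.2
  obtain ⟨δ, hδ⟩ : ∃ δ : FinitePlace K → ℝ, ∀ v, δ v = dl (fun x : K => v x) A B :=
    ⟨fun v => dl (fun x : K => v x) A B, fun _ => rfl⟩
  have hδ0 : ∀ v, 0 ≤ δ v := fun v => by rw [hδ]; exact (hloc v).1
  have hδS : ∀ v : FinitePlace K, v ∉ S → δ v = 0 := by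
    intro v hv
    rw [hS, not_not] at hv
    rw [hδ]
    exact (hloc v).2.2.2.2 hv.1 hv.2.1 hv.2.2.1 hv.2.2.2.1 hv.2.2.2.2
  obtain ⟨ε, hε⟩ : ∃ ε : FinitePlace K → ℝ, ∀ v, ε v = if v 2 = 1 ∧ v 3 = 1 then 0 else Cv v :=
    ⟨fun v => if v 2 = 1 ∧ v 3 = 1 then 0 else Cv v, fun _ => rfl⟩
  have hε0 : ∀ v, 0 ≤ ε v := by
    intro v
    rw [hε]
    split_ifs
    · exact le_rfl
    · exact hCv0 v
  have hεsum : ∀ T : Finset (FinitePlace K), ∑ v ∈ T, ε v ≤ C1 := by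
    intro T
    have h1 : ∑ v ∈ T, ε v = ∑ v ∈ T.filter (fun v => v ∈ S6), Cv v := by
      rw [Finset.sum_filter]
      apply Finset.sum_congr rfl
      intro v _
      simp only [hε, hS6]
      split_ifs <;> tauto
    rw [h1, hC1]
    apply Finset.sum_le_sum_of_subset_of_nonneg
    · intro v hv; exact (Finset.mem_filter.1 hv).2
    · intro v _ _; exact hCv0 v
  choose wf tf hw0 hwδ hex hUf using
    fun v : FinitePlace K => hCv v A B hD m X Y hg (ε v) (by rw [hε])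
  choose τ hUi using fun w : InfinitePlace K => hCX K w A B hD X Y hg
  have hLD : LD A B = ∑ v ∈ S, δ v := by
    unfold LD
    have h0 : (fun v : FinitePlace K => dl (fun x : K => v x) A B) = δ := by
      funext v; rw [hδ]
    rw [h0]
    apply finsum_eq_sum_of_support_subset
    intro v hv
    by_contra h'
    exact hv (hδS v (by simpa using h'))
  have hLD0 : 0 ≤ LD A B := by rw [hLD]; exact Finset.sum_nonneg fun v _ => hδ0 v
  -- the places of S not above 6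
  obtain ⟨T, hT⟩ : ∃ T : Finset (FinitePlace K), T = S.filter (fun v => v ∉ S6) := ⟨_, rfl⟩
  have hsplit : ∀ F : FinitePlace K → ℝ, ∑ v ∈ S, F v = ∑ v ∈ S6, F v + ∑ v ∈ T, F v := by
    intro F
    rw [← Finset.sum_filter_add_sum_filter_not S (fun v => v ∈ S6) F, hT]
    congr 1
    apply Finset.sum_congr _ fun _ _ => rfl
    ext v
    rw [Finset.mem_filter]
    exact ⟨fun h => h.2, fun h => ⟨hS6S h, h⟩⟩
  have hT6 : ∀ v ∈ T, v 2 = 1 ∧ v 3 = 1 := by
    intro v hv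
    rw [hT] at hv
    have h1 := (Finset.mem_filter.1 hv).2
    rw [hS6, not_not] at h1
    exact h1
  -- arch weights
  obtain ⟨wi, hwi⟩ : ∃ wi : InfinitePlace K → ℝ, ∀ w, wi w =
      (w.mult : ℝ) * max 0 (Real.log (w (6912 * A ^ 3 / dsc A B))) := ⟨_, fun _ => rfl⟩
  have hwi0 : ∀ w, 0 ≤ wi w := fun w => by
    rw [hwi]; exact mul_nonneg (Nat.cast_nonneg _) (le_max_left _ _)
  obtain ⟨H, hH⟩ : ∃ H : ℝ, H = LD A B + ∑ w : InfinitePlace K, wi w := ⟨_, rfl⟩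
  have hHi0 : 0 ≤ ∑ w : InfinitePlace K, wi w := Finset.sum_nonneg fun w _ => hwi0 w
  have hsumwi : ∑ w : InfinitePlace K, (w.mult : ℝ) *
      max 0 (Real.log (w (6912 * A ^ 3 / dsc A B))) = ∑ w : InfinitePlace K, wi w :=
    Finset.sum_congr rfl fun w _ => (hwi w).symm
  rw [hsumwi] at hH1 hH2
  refine ⟨H, by rw [hH]; linarith, by rw [hH]; linarith, by rw [hH]; linarith, ?_⟩
  -- the special places
  have hsp : ∀ F : (S6 ⊕ InfinitePlace K) → ℝ,
      ∑ i : Fin (Fintype.card (S6 ⊕ InfinitePlace K)),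
        F ((Fintype.equivFin (S6 ⊕ InfinitePlace K)).symm i) =
      ∑ v : S6, F (Sum.inl v) + ∑ w : InfinitePlace K, F (Sum.inr w) := by
    intro F
    rw [Equiv.sum_comp (Fintype.equivFin (S6 ⊕ InfinitePlace K)).symm F, Fintype.sum_sum_type]
  refine ⟨Fintype.card (S6 ⊕ InfinitePlace K),
    fun i => Sum.elim (fun v : S6 => wf v) wi
      ((Fintype.equivFin (S6 ⊕ InfinitePlace K)).symm i),
    fun i => Sum.elim (fun v : S6 => tf v) (fun w i => 12 * τ w i)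
      ((Fintype.equivFin (S6 ⊕ InfinitePlace K)).symm i), T, tf, ?_, ?_, ?_, ?_, ?_⟩
  · rw [Fintype.card_sum, Fintype.card_coe]
    push_cast
    rw [← hC3, ← hC4, hC₀]
    linarith
  · have h0 : ∀ a : S6 ⊕ InfinitePlace K, 0 ≤ Sum.elim (fun v : S6 => wf v) wi a := by
      rintro (v | w)
      · exact hw0 v
      · exact hwi0 w
    exact fun i => h0 _
  · intro v hv
    obtain ⟨h2, h3⟩ := hT6 v hv
    refine ⟨h2, h3, ?_, (hex v h2 h3).2.1, (hex v h2 h3).2.2⟩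
    have := hδ0 v
    rwa [hδ] at this
  · -- total
    rw [hsp (Sum.elim (fun v : S6 => wf v) wi)]
    simp only [Sum.elim_inl, Sum.elim_inr]
    rw [Finset.sum_coe_sort S6 wf]
    have e1 : ∑ v ∈ S6, wf v + ∑ w : InfinitePlace K, wi w +
        ∑ v ∈ T, dl (fun z : K => v z) A B - H = ∑ v ∈ S6, (wf v - δ v) := by
      rw [hH, hLD, hsplit δ, Finset.sum_sub_distrib]
      simp only [hδ]
      ring
    rw [e1]
    refine (Finset.abs_sum_le_sum_abs _ _).trans ?_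
    have h1 : ∀ v ∈ S6, |wf v - δ v| ≤ ε v := by
      intro v _
      rw [hδ]
      exact hwδ v
    refine (Finset.sum_le_sum h1).trans ?_
    refine (hεsum S6).trans ?_
    rw [hC₀]; linarith
  · -- main inequality
    intro k hk
    choose U hU1 hU2 hU3 using fun v : FinitePlace K => hUf v k hk
    choose Ui hUi1 hUi2 hUi3 using fun w : InfinitePlace K => hUi w k hk
    have hcne : ∀ n : ℕ, 1 ≤ n → 4 * cu A B (X (n • k)) ≠ 0 := fun n hn =>
      mul_ne_zero (by norm_num) (LMT_cu hg _ (LMT_smul n hn k hk))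
    have hsq := hSQ K m 0 A B X Y hg k hk
    have hpot := hPOT K (fun n => X (n • k)) (fun n => 4 * cu A B (X (n • k))) (e k) (he k hk)
      hcne S U ε Ui CX (fun v _ n hn => hU1 v n hn)
      (by
        intro v hv n hn
        have hv' := hv
        rw [hS, not_not] at hv'
        obtain ⟨V, hV, _⟩ := hFP K v
        have := hGO K V (by rw [hV]; exact hv'.1) A B (by rw [hV]; exact hv'.2.2.1)
          (by rw [hV]; exact hv'.2.2.2.1) (by rw [hV]; exact hv'.2.2.2.2) _ _ hsq n hn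
        simpa only [hV] using this)
      (fun w n hn => hUi1 w n hn) (fun v _ => hU2 v) (fun w => hUi2 w)
    have h1 := hpot 12 (by norm_num)
    have h2 : ∑ v ∈ S, (wf v * B2 (pr k (tf v)) + 1 / 6 * Real.log (v (dsc A B)) - ε v) ≤
        ∑ v ∈ S, U v 12 := by
      apply Finset.sum_le_sum
      intro v _
      have := hU3 v 1 le_rfl
      rw [Nat.cast_one, one_mul, mul_one] at this
      exact this
    have h3 : ∑ w : InfinitePlace K, (w.mult : ℝ) * (1 / 6 * Real.log (w (dsc A B)) +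
        max 0 (Real.log (w (6912 * A ^ 3 / dsc A B))) * B2 (((12 : ℕ) : ℝ) * pr k (τ w)) - CX) ≤
        ∑ w : InfinitePlace K, (w.mult : ℝ) * Ui w 12 := by
      apply Finset.sum_le_sum
      intro w _
      exact mul_le_mul_of_nonneg_left (hUi3 w 12 (by norm_num)) (Nat.cast_nonneg _)
    have h4 := kmt_prod hD S hSD
    have h5 : ∑ v ∈ S, (wf v * B2 (pr k (tf v)) + 1 / 6 * Real.log (v (dsc A B)) - ε v) =
        ∑ v ∈ S, wf v * B2 (pr k (tf v)) + 1 / 6 * ∑ v ∈ S, Real.log (v (dsc A B)) -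
        ∑ v ∈ S, ε v := by
      rw [Finset.sum_sub_distrib, Finset.sum_add_distrib, Finset.mul_sum]
    have h6 : ∑ w : InfinitePlace K, (w.mult : ℝ) * (1 / 6 * Real.log (w (dsc A B)) +
        max 0 (Real.log (w (6912 * A ^ 3 / dsc A B))) * B2 (((12 : ℕ) : ℝ) * pr k (τ w)) - CX) =
        1 / 6 * ∑ w : InfinitePlace K, (w.mult : ℝ) * Real.log (w (dsc A B)) +
        ∑ w : InfinitePlace K, wi w * B2 (pr k (fun i => 12 * τ w i)) - d * CX := by
      have e1 : ∀ w : InfinitePlace K, (w.mult : ℝ) * (1 / 6 * Real.log (w (dsc A B)) +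
          max 0 (Real.log (w (6912 * A ^ 3 / dsc A B))) * B2 (((12 : ℕ) : ℝ) * pr k (τ w)) -
            CX) =
          1 / 6 * ((w.mult : ℝ) * Real.log (w (dsc A B))) +
            wi w * B2 (pr k (fun i => 12 * τ w i)) - (w.mult : ℝ) * CX := by
        intro w
        rw [LMT_pr, hwi]; push_cast; ring
      rw [Finset.sum_congr rfl fun w _ => e1 w, Finset.sum_sub_distrib, Finset.sum_add_distrib,
        ← Finset.mul_sum, ← Finset.sum_mul]
      have e2 : ∑ w : InfinitePlace K, (w.mult : ℝ) = d := by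
        rw [hd, ← InfinitePlace.sum_mult_eq]; push_cast; rfl
      rw [e2]
    have h7 : ∑ v ∈ S, wf v * B2 (pr k (tf v)) = ∑ v ∈ S6, wf v * B2 (pr k (tf v)) +
        ∑ v ∈ T, dl (fun z : K => v z) A B * B2 (pr k (tf v)) := by
      rw [hsplit fun v => wf v * B2 (pr k (tf v))]
      congr 1
      refine Finset.sum_congr rfl fun v hv => ?_
      obtain ⟨h2, h3⟩ := hT6 v hv
      rw [(hex v h2 h3).1]
    have h8 := hεsum S
    have h8' : ∑ i : Fin (Fintype.card (S6 ⊕ InfinitePlace K)),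
        Sum.elim (fun v : S6 => wf v) wi ((Fintype.equivFin (S6 ⊕ InfinitePlace K)).symm i) *
          B2 (pr k (Sum.elim (fun v : S6 => tf v) (fun w i => 12 * τ w i)
            ((Fintype.equivFin (S6 ⊕ InfinitePlace K)).symm i))) =
        ∑ v ∈ S6, wf v * B2 (pr k (tf v)) +
          ∑ w : InfinitePlace K, wi w * B2 (pr k (fun i => 12 * τ w i)) := by
      rw [hsp fun a => Sum.elim (fun v : S6 => wf v) wi a *
          B2 (pr k (Sum.elim (fun v : S6 => tf v) (fun w i => 12 * τ w i) a))]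
      simp only [Sum.elim_inl, Sum.elim_inr]
      rw [Finset.sum_coe_sort S6 (fun v => wf v * B2 (pr k (tf v)))]
    rw [h8']
    have h9 : (((12 : ℕ) : ℝ)) ^ 2 * e k = 144 * e k := by push_cast; ring
    rw [h9, ← hd] at h1
    rw [h5, h7] at h2
    rw [h6] at h3
    have h10 : (0 : ℝ) ≤ ∑ v ∈ S, ε v := Finset.sum_nonneg fun v _ => hε0 v
    rw [hC₀]
    linarith

end Pool.Agent.Helper66.LS5
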