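import Pool.Agent.Helper9.LS5.SheetC
import Pool.Agent.Helper66.LS5.LMT2

/-!
Project LS5, row LMT3: the master inequality for several points, all places identified.
-/

set_option autoImplicit false

open Filter Topology NumberField

namespace Pool.Agent.Helper66.LS5

open Pool.Agent.Helper42.LS Pool.Agent.Helper42.LK Pool.Agent.Helper54.LM Pool.Agent.Helper9.LS5

theorem LMT3 (hLB : ST_LLB2) (hLS : ST_LLS) (hCX : ST_LCX) (hSQ : ST_LSQ) (hMAP : ST_LMAP)
    (hGO : ST_KGO) (hPOT : ST_KPOT) (hDF : ST_KDF) (hFP : ST_KFP) : ST_LMT3 := by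
  classical
  intro K _ _ m
  obtain ⟨CX, hCX0, hCX⟩ := LMT_arch hCX hMAP m
  -- the places above 2 and 3
  have h6fin : {v : FinitePlace K | ¬ (v 2 = 1 ∧ v 3 = 1)}.Finite := by
    have h := (hDF K (0 : K) (1 : K) (by unfold dsc; norm_num)).1
    refine h.subset ?_
    intro v hv h'
    exact hv ⟨h'.1, h'.2.1⟩
  obtain ⟨S6, hS6⟩ : ∃ S6 : Finset (FinitePlace K), ∀ v, v ∈ S6 ↔ ¬ (v 2 = 1 ∧ v 3 = 1) :=
    ⟨h6fin.toFinset, fun v => by rw [Set.Finite.mem_toFinset]; rfl⟩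
  choose Cv hCv0 hCv using LMT_local2 hLB hLS hFP K
  obtain ⟨d, hd⟩ : ∃ d : ℝ, d = (Module.finrank ℚ K : ℝ) := ⟨_, rfl⟩
  have hd0 : 0 ≤ d := by rw [hd]; exact Nat.cast_nonneg _
  obtain ⟨C1, hC1⟩ : ∃ C1 : ℝ, C1 = ∑ v ∈ S6, Cv v := ⟨_, rfl⟩
  have hC10 : 0 ≤ C1 := by rw [hC1]; exact Finset.sum_nonneg fun v _ => hCv0 v
  obtain ⟨C₀, hC₀⟩ : ∃ C₀ : ℝ, C₀ = 2 * C1 + 2 * (d * CX) := ⟨_, rfl⟩
  have hdCX : 0 ≤ d * CX := mul_nonneg hd0 hCX0
  have hC₀0 : 0 ≤ C₀ := by rw [hC₀]; linarith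
  refine ⟨C₀, hC₀0, ?_⟩
  intro A B hD X Y e hg he
  obtain ⟨hfin, hloc, hmulfin, hH1, hH2⟩ := hDF K A B hD
  obtain ⟨S, hS⟩ : ∃ S : Finset (FinitePlace K), ∀ v, v ∈ S ↔
      ¬ (v 2 = 1 ∧ v 3 = 1 ∧ v A ≤ 1 ∧ v B ≤ 1 ∧ v (dsc A B) = 1) :=
    ⟨hfin.toFinset, fun v => by rw [Set.Finite.mem_toFinset]; rfl⟩
  have hSD : ∀ v : FinitePlace K, v ∉ S → v (dsc A B) = 1 := by
    intro v hv
    rw [hS, not_not] at hv
    exact hv.2.2.2.2
  obtain ⟨ε, hε⟩ : ∃ ε : FinitePlace K → ℝ, ∀ v, ε v = if v 2 = 1 ∧ v 3 = 1 then 0 else Cv v :=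
    ⟨fun v => if v 2 = 1 ∧ v 3 = 1 then 0 else Cv v, fun _ => rfl⟩
  have hε0 : ∀ v, 0 ≤ ε v := by
    intro v
    rw [hε]
    split_ifs
    · exact le_rfl
    · exact hCv0 v
  have hεsum : ∀ T : Finset (FinitePlace K), ∑ v ∈ T, ε v ≤ C1 := by
    intro T
    have h1 : ∑ v ∈ T, ε v = ∑ v ∈ T.filter (fun v => v ∈ S6), Cv v := by
      rw [Finset.sum_filter]
      apply Finset.sum_congr rfl
      intro v _
      simp only [hε, hS6]
      split_ifs <;> tauto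
    rw [h1, hC1]
    apply Finset.sum_le_sum_of_subset_of_nonneg
    · intro v hv; exact (Finset.mem_filter.1 hv).2
    · intro v _ _; exact hCv0 v
  choose wf tf hw0 hwδ hex hUf using
    fun v : FinitePlace K => hCv v A B hD m X Y hg (ε v) (by rw [hε])
  choose τ hUi using fun w : InfinitePlace K => hCX K w A B hD X Y hg
  refine ⟨S, wf, tf, fun w i => 12 * τ w i, ?_, hw0, ?_, ?_, ?_⟩
  · intro v hv
    rw [hS, not_not] at hv
    exact ⟨hv.1, hv.2.1, (hloc v).2.2.2.2 hv.1 hv.2.1 hv.2.2.1 hv.2.2.2.1 hv.2.2.2.2⟩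
  · refine (Finset.sum_le_sum fun v _ => hwδ v).trans ?_
    refine (hεsum S).trans ?_
    rw [hC₀]; linarith
  · intro v h2 h3
    exact ⟨(hex v h2 h3).1, (hex v h2 h3).2.2⟩
  · -- main inequality
    intro k hk
    choose U hU1 hU2 hU3 using fun v : FinitePlace K => hUf v k hk
    choose Ui hUi1 hUi2 hUi3 using fun w : InfinitePlace K => hUi w k hk
    have hcne : ∀ n : ℕ, 1 ≤ n → 4 * cu A B (X (n • k)) ≠ 0 := fun n hn =>
      mul_ne_zero (by norm_num) (LMT_cu hg _ (LMT_smul n hn k hk))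
    have hsq := hSQ K m 0 A B X Y hg k hk
    have hpot := hPOT K (fun n => X (n • k)) (fun n => 4 * cu A B (X (n • k))) (e k) (he k hk)
      hcne S U ε Ui CX (fun v _ n hn => hU1 v n hn)
      (by
        intro v hv n hn
        have hv' := hv
        rw [hS, not_not] at hv'
        obtain ⟨V, hV, _⟩ := hFP K v
        have := hGO K V (by rw [hV]; exact hv'.1) A B (by rw [hV]; exact hv'.2.2.1)
          (by rw [hV]; exact hv'.2.2.2.1) (by rw [hV]; exact hv'.2.2.2.2) _ _ hsq n hn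
        simpa only [hV] using this)
      (fun w n hn => hUi1 w n hn) (fun v _ => hU2 v) (fun w => hUi2 w)
    have h1 := hpot 12 (by norm_num)
    have h2 : ∑ v ∈ S, (wf v * B2 (pr k (tf v)) + 1 / 6 * Real.log (v (dsc A B)) - ε v) ≤
        ∑ v ∈ S, U v 12 := by
      apply Finset.sum_le_sum
      intro v _
      have := hU3 v 1 le_rfl
      rw [Nat.cast_one, one_mul, mul_one] at this
      exact this
    have h3 : ∑ w : InfinitePlace K, (w.mult : ℝ) * (1 / 6 * Real.log (w (dsc A B)) +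
        max 0 (Real.log (w (6912 * A ^ 3 / dsc A B))) * B2 (((12 : ℕ) : ℝ) * pr k (τ w)) - CX) ≤
        ∑ w : InfinitePlace K, (w.mult : ℝ) * Ui w 12 := by
      apply Finset.sum_le_sum
      intro w _
      exact mul_le_mul_of_nonneg_left (hUi3 w 12 (by norm_num)) (Nat.cast_nonneg _)
    have h4 := kmt_prod hD S hSD
    have h5 : ∑ v ∈ S, (wf v * B2 (pr k (tf v)) + 1 / 6 * Real.log (v (dsc A B)) - ε v) =
        ∑ v ∈ S, wf v * B2 (pr k (tf v)) + 1 / 6 * ∑ v ∈ S, Real.log (v (dsc A B)) -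
        ∑ v ∈ S, ε v := by
      rw [Finset.sum_sub_distrib, Finset.sum_add_distrib, Finset.mul_sum]
    have h6 : ∑ w : InfinitePlace K, (w.mult : ℝ) * (1 / 6 * Real.log (w (dsc A B)) +
        max 0 (Real.log (w (6912 * A ^ 3 / dsc A B))) * B2 (((12 : ℕ) : ℝ) * pr k (τ w)) - CX) =
        1 / 6 * ∑ w : InfinitePlace K, (w.mult : ℝ) * Real.log (w (dsc A B)) +
        ∑ w : InfinitePlace K, (w.mult : ℝ) * max 0 (Real.log (w (6912 * A ^ 3 / dsc A B))) *
          B2 (pr k (fun i => 12 * τ w i)) - d * CX := by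
      have e1 : ∀ w : InfinitePlace K, (w.mult : ℝ) * (1 / 6 * Real.log (w (dsc A B)) +
          max 0 (Real.log (w (6912 * A ^ 3 / dsc A B))) * B2 (((12 : ℕ) : ℝ) * pr k (τ w)) -
            CX) =
          1 / 6 * ((w.mult : ℝ) * Real.log (w (dsc A B))) +
            (w.mult : ℝ) * max 0 (Real.log (w (6912 * A ^ 3 / dsc A B))) *
              B2 (pr k (fun i => 12 * τ w i)) - (w.mult : ℝ) * CX := by
        intro w
        rw [LMT_pr]; push_cast; ring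
      rw [Finset.sum_congr rfl fun w _ => e1 w, Finset.sum_sub_distrib, Finset.sum_add_distrib,
        ← Finset.mul_sum, ← Finset.sum_mul]
      have e2 : ∑ w : InfinitePlace K, (w.mult : ℝ) = d := by
        rw [hd, ← InfinitePlace.sum_mult_eq]; push_cast; rfl
      rw [e2]
    have h8 := hεsum S
    have h9 : (((12 : ℕ) : ℝ)) ^ 2 * e k = 144 * e k := by push_cast; ring
    rw [h9, ← hd] at h1
    rw [h5] at h2
    rw [h6] at h3
    have h10 : (0 : ℝ) ≤ ∑ v ∈ S, ε v := Finset.sum_nonneg fun v _ => hε0 v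
    rw [hC₀]
    show ∑ v ∈ S, wf v * B2 (pr k (tf v)) +
      ∑ w : InfinitePlace K, (w.mult : ℝ) * max 0 (Real.log (w (6912 * A ^ 3 / dsc A B))) *
        B2 (pr k (fun i => 12 * τ w i)) - (2 * C1 + 2 * (d * CX)) ≤ 144 * e k
    linarith

end Pool.Agent.Helper66.LS5
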