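import Pool.Agent.Helper9.LS5.SheetC

/-!
Project LS5, row SGN: pigeonhole for pair sums.
-/

set_option autoImplicit false

namespace Pool.Agent.Helper66.LS5

open Pool.Agent.Helper9.LS5

/-- the pair sum over the classes of `g` is a sum of squares -/
lemma prs_class {ι γ : Type} [DecidableEq γ] (V : Finset ι) (w : ι → ℝ) (g : ι → γ) :
    prs V w (fun v v' => g v = g v') =
      ∑ c ∈ V.image g, (∑ v ∈ V with g v = c, w v) ^ 2 := by
  unfold prs
  rw [← Finset.sum_fiberwise_of_maps_to (s := V) (t := V.image g) (g := g)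
    (fun v hv => Finset.mem_image_of_mem g hv)]
  refine Finset.sum_congr rfl fun c _ => ?_
  rw [sq, Finset.sum_mul]
  refine Finset.sum_congr rfl fun v hv => ?_
  rw [Finset.mem_filter] at hv
  rw [Finset.mul_sum, Finset.sum_filter]
  refine Finset.sum_congr rfl fun v' _ => ?_
  beta_reduce
  rw [hv.2]
  by_cases h : g v' = c
  · rw [if_pos h.symm, if_pos h]
  · rw [if_neg fun h' => h h'.symm, if_neg h]

theorem SGN : ST_SGN := by
  classical
  intro ι α β _ V w f σ hw
  have e2 : prs V w (fun v v' => f v = f v' ∧ σ v = σ v') =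
      prs V w (fun v v' => (f v, σ v) = (f v', σ v')) := by
    unfold prs
    refine Finset.sum_congr rfl fun v _ => Finset.sum_congr rfl fun v' _ => ?_
    by_cases h : f v = f v' ∧ σ v = σ v'
    · rw [if_pos h, if_pos (Prod.ext h.1 h.2)]
    · rw [if_neg h, if_neg fun h' => h (Prod.mk.injEq .. ▸ h')]
  rw [e2, prs_class V w f, prs_class V w (fun v => (f v, σ v)), Finset.mul_sum]
  -- the classes of `(f, σ)` inside the product
  have e3 : ∑ c ∈ V.image (fun v => (f v, σ v)),
      (Fintype.card β : ℝ) * (∑ v ∈ V with (f v, σ v) = c, w v) ^ 2 =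
      ∑ c ∈ (V.image f) ×ˢ (Finset.univ : Finset β),
        (Fintype.card β : ℝ) * (∑ v ∈ V with (f v, σ v) = c, w v) ^ 2 := by
    refine Finset.sum_subset ?_ ?_
    · intro c hc
      obtain ⟨v, hv, rfl⟩ := Finset.mem_image.1 hc
      exact Finset.mem_product.2 ⟨Finset.mem_image_of_mem f hv, Finset.mem_univ _⟩
    · intro c _ hc
      have : (V.filter fun v => (f v, σ v) = c) = ∅ := by
        refine Finset.filter_eq_empty_iff.2 fun v hv h => hc ?_
        rw [← h]
        exact Finset.mem_image_of_mem (fun v => (f v, σ v)) hv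
      rw [this, Finset.sum_empty]
      ring
  rw [e3, Finset.sum_product]
  refine Finset.sum_le_sum fun c _ => ?_
  rw [← Finset.mul_sum]
  have e4 : ∑ v ∈ V with f v = c, w v = ∑ b : β, ∑ v ∈ V with (f v, σ v) = (c, b), w v := by
    rw [← Finset.sum_fiberwise (s := V.filter fun v => f v = c) (g := σ)]
    refine Finset.sum_congr rfl fun b _ => ?_
    rw [Finset.filter_filter]
    refine Finset.sum_congr ?_ fun _ _ => rfl
    ext v
    simp only [Finset.mem_filter, Prod.mk.injEq]
  rw [e4]
  have h := sq_sum_le_card_mul_sum_sq (s := (Finset.univ : Finset β))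
    (f := fun b => ∑ v ∈ V with (f v, σ v) = (c, b), w v)
  rwa [Finset.card_univ] at h

end Pool.Agent.Helper66.LS5
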