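import Pool.Agent.Helper9.LS5.SheetE
import Pool.Agent.Helper99.LK.KPL

/-!
Project LS5, row ZIM: uniform comparison of the canonical height with the height.
-/

set_option autoImplicit false

open NumberField Height Filter Topology

namespace Pool.Agent.Helper66.LS5

open Pool.Agent.Helper42.LS Pool.Agent.Helper42.LK Pool.Agent.Helper9.LS5

section

variable {K : Type} [Field K] [NumberField K]

/-- the height of a vector is at most the sum of the heights of the entries -/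
theorem logHeight_le_sum {ι : Type} [Fintype ι] (v : ι → K) :
    logHeight v ≤ ∑ i, logHeight₁ (v i) := by
  classical
  have h1 : ∀ i, (![v i, (1 : K)]) ≠ 0 := by
    intro i
    simp
  have h2 := logHeight_fun_prod_eq (α := ι) (ι := fun _ => Fin 2) (x := fun i => ![v i, 1]) h1
  have h3 : v = (fun I : ι → Fin 2 => ∏ a, (![v a, (1 : K)]) (I a)) ∘
      (fun i a => if a = i then 0 else 1) := by
    funext i
    simp only [Function.comp]
    rw [Finset.prod_eq_single i]
    · simp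
    · intro a _ ha
      simp [ha]
    · simp
  have h4 := logHeight_comp_le (fun (i : ι) (a : ι) => if a = i then (0 : Fin 2) else 1)
    (fun I : ι → Fin 2 => ∏ a, (![v a, (1 : K)]) (I a))
  rw [← h3, h2] at h4
  refine h4.trans (le_of_eq (Finset.sum_congr rfl fun i _ => ?_))
  rw [logHeight₁_eq_logHeight]

/-- the height of the first powers -/
theorem logHeight_pows (x : K) :
    logHeight (fun i : Fin 4 => x ^ (i : ℕ)) ≤ 3 * logHeight₁ x := by
  have h1 : ∀ i : Fin 3, (![x, (1 : K)]) ≠ 0 := by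
    intro i
    simp
  have h2 := logHeight_fun_prod_eq (α := Fin 3) (ι := fun _ => Fin 2) (x := fun _ => ![x, 1]) h1
  have h3 : (fun i : Fin 4 => x ^ (i : ℕ)) = (fun I : Fin 3 → Fin 2 => ∏ a, (![x, (1 : K)]) (I a)) ∘
      (![![1, 1, 1], ![0, 1, 1], ![0, 0, 1], ![0, 0, 0]]) := by
    funext i
    fin_cases i <;> simp [Fin.prod_univ_succ] <;> ring
  have h4 := logHeight_comp_le (![![1, 1, 1], ![0, 1, 1], ![0, 0, 1], ![0, 0, 0]])
    (fun I : Fin 3 → Fin 2 => ∏ a, (![x, (1 : K)]) (I a))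
  rw [← h3, h2] at h4
  refine h4.trans (le_of_eq ?_)
  rw [Finset.sum_const, ← logHeight₁_eq_logHeight]
  simp

/-- bounded height in terms of the heights of the coefficients -/
def Bd (z : K → K → K) : Prop :=
  ∃ C : ℝ, ∀ A B, logHeight₁ (z A B) ≤ C * (1 + logHeight₁ A + logHeight₁ B)

theorem Bd.const (c : K) : Bd (fun _ _ => c) := by
  refine ⟨logHeight₁ c, fun A B => ?_⟩
  have h1 := zero_le_logHeight₁ A
  have h2 := zero_le_logHeight₁ B
  have h3 := zero_le_logHeight₁ c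
  nlinarith

theorem Bd.left : Bd (fun A _ : K => A) := by
  refine ⟨1, fun A B => ?_⟩
  have h1 := zero_le_logHeight₁ A
  have h2 := zero_le_logHeight₁ B
  linarith

theorem Bd.right : Bd (fun _ B : K => B) := by
  refine ⟨1, fun A B => ?_⟩
  have h1 := zero_le_logHeight₁ A
  have h2 := zero_le_logHeight₁ B
  linarith

theorem Bd.mul {z z' : K → K → K} (h : Bd z) (h' : Bd z') : Bd (fun A B => z A B * z' A B) := by
  obtain ⟨C, hC⟩ := h
  obtain ⟨C', hC'⟩ := h'
  refine ⟨C + C', fun A B => ?_⟩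
  have h1 := logHeight₁_mul_le (z A B) (z' A B)
  have h2 := hC A B
  have h3 := hC' A B
  linarith

theorem Bd.add {z z' : K → K → K} (h : Bd z) (h' : Bd z') : Bd (fun A B => z A B + z' A B) := by
  obtain ⟨C, hC⟩ := h
  obtain ⟨C', hC'⟩ := h'
  refine ⟨totalWeight K * Real.log 2 + C + C', fun A B => ?_⟩
  have h1 := logHeight₁_add_le (z A B) (z' A B)
  have h2 := hC A B
  have h3 := hC' A B
  have h4 := zero_le_logHeight₁ A
  have h5 := zero_le_logHeight₁ B
  have h6 : 0 ≤ (totalWeight K : ℝ) * Real.log 2 :=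
    mul_nonneg (Nat.cast_nonneg _) (Real.log_nonneg (by norm_num))
  nlinarith

theorem Bd.pow {z : K → K → K} (h : Bd z) (n : ℕ) : Bd (fun A B => z A B ^ n) := by
  obtain ⟨C, hC⟩ := h
  refine ⟨n * C, fun A B => ?_⟩
  rw [logHeight₁_pow, mul_assoc]
  exact mul_le_mul_of_nonneg_left (hC A B) (Nat.cast_nonneg _)

/-- the coefficients of the two identities -/
def cf (A B : K) (q : Fin 2 × (Fin 4 × Fin 2)) : K :=
  (![![![12 * (B * (A ^ 3 + 8 * B ^ 2)), -3 * (A ^ 2 * (A ^ 3 + 8 * B ^ 2))],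
      ![4 * (A * (3 * A ^ 3 + 22 * B ^ 2)), 2 * (B * (13 * A ^ 3 + 96 * B ^ 2))],
      ![-4 * (A ^ 2 * B), A * (5 * A ^ 3 + 32 * B ^ 2)],
      ![4 * (4 * A ^ 3 + 27 * B ^ 2), A ^ 2 * B]],
    ![![16 * A, 27 * B], ![0, 5 * A], ![12, 0], ![0, -3]]] : Fin 2 → Fin 4 → Fin 2 → K) q.1 q.2.1 q.2.2

theorem cf_bd (q : Fin 2 × (Fin 4 × Fin 2)) : Bd (fun A B : K => cf A B q) := by
  have a3 : Bd (fun A _ : K => A ^ 3) := Bd.left.pow 3
  have a2 : Bd (fun A _ : K => A ^ 2) := Bd.left.pow 2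
  have b2 : Bd (fun _ B : K => B ^ 2) := Bd.right.pow 2
  have e1 : Bd (fun A B : K => A ^ 3 + 8 * B ^ 2) := a3.add ((Bd.const 8).mul b2)
  have e2 : Bd (fun A B : K => 3 * A ^ 3 + 22 * B ^ 2) :=
    ((Bd.const 3).mul a3).add ((Bd.const 22).mul b2)
  have e3 : Bd (fun A B : K => 13 * A ^ 3 + 96 * B ^ 2) :=
    ((Bd.const 13).mul a3).add ((Bd.const 96).mul b2)
  have e4 : Bd (fun A B : K => 5 * A ^ 3 + 32 * B ^ 2) :=
    ((Bd.const 5).mul a3).add ((Bd.const 32).mul b2)
  have e5 : Bd (fun A B : K => 4 * A ^ 3 + 27 * B ^ 2) :=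
    ((Bd.const 4).mul a3).add ((Bd.const 27).mul b2)
  obtain ⟨i, j, k⟩ := q
  fin_cases i <;> fin_cases j <;> fin_cases k
  · exact (Bd.const 12).mul (Bd.right.mul e1)
  · exact (Bd.const (-3)).mul (a2.mul e1)
  · exact (Bd.const 4).mul (Bd.left.mul e2)
  · exact (Bd.const 2).mul (Bd.right.mul e3)
  · exact (Bd.const (-4)).mul (a2.mul Bd.right)
  · exact Bd.left.mul e4
  · exact (Bd.const 4).mul e5
  · exact a2.mul Bd.right
  · exact (Bd.const 16).mul Bd.left
  · exact (Bd.const 27).mul Bd.right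
  · exact Bd.const 0
  · exact (Bd.const 5).mul Bd.left
  · exact Bd.const 12
  · exact Bd.const 0
  · exact Bd.const 0
  · exact Bd.const (-3)

omit [NumberField K] in
theorem cf_sum (A B x : K) :
    (fun j : Fin 2 => ∑ i : Fin 4 × Fin 2, cf A B (j, i) *
      (x ^ (i.1 : ℕ) * (![th A B x, 4 * cu A B x]) i.2)) = (4 * dsc A B) • ![x ^ 7, 1] := by
  funext j
  rw [Fintype.sum_prod_type]
  simp only [Fin.sum_univ_four, Fin.sum_univ_two]
  fin_cases j
  · simp [cf, th, cu, dsc]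
    ring
  · simp [cf, th, cu, dsc]
    ring

end

/-- uniform duplication bound -/
theorem dup (K : Type) [Field K] [NumberField K] : ∃ C : ℝ, 0 ≤ C ∧ ∀ A B x : K, dsc A B ≠ 0 →
    4 * logHeight₁ x ≤ logHeight₁ (th A B x / (4 * cu A B x)) +
      C * (1 + logHeight₁ A + logHeight₁ B) := by
  choose C hC using fun q => cf_bd (K := K) q
  refine ⟨totalWeight K * Real.log 8 + ∑ q, |C q|, by positivity, fun A B x hD => ?_⟩
  have h4 : (4 * dsc A B : K) ≠ 0 := mul_ne_zero (by norm_num) hD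
  have hFG : (![th A B x, 4 * cu A B x]) ≠ 0 := by
    intro h0
    have h1 := congrFun (cf_sum A B x) 1
    simp only [h0] at h1
    simp [hD] at h1
  have hp : (fun i : Fin 4 => x ^ (i : ℕ)) ≠ 0 := by
    intro h0
    have h1 := congrFun h0 0
    simp at h1
  have h1 := logHeight_linearMap_apply_le (cf A B)
    (fun i : Fin 4 × Fin 2 => x ^ (i.1 : ℕ) * (![th A B x, 4 * cu A B x]) i.2)
  rw [cf_sum, logHeight_smul_eq_logHeight _ h4, ← logHeight₁_eq_logHeight, logHeight₁_pow,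
    logHeight_fun_mul_eq hp hFG, ← logHeight₁_div_eq_logHeight] at h1
  have h2 := logHeight_pows x
  have h3 : logHeight (cf A B) ≤ (∑ q, |C q|) * (1 + logHeight₁ A + logHeight₁ B) := by
    refine (logHeight_le_sum _).trans ?_
    rw [Finset.sum_mul]
    refine Finset.sum_le_sum fun q _ => (hC q A B).trans ?_
    refine mul_le_mul_of_nonneg_right (le_abs_self _) ?_
    have h4 := zero_le_logHeight₁ A
    have h5 := zero_le_logHeight₁ B
    linarith
  have h5 : (Nat.card (Fin 4 × Fin 2) : ℝ) = 8 := by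
    simp
  rw [h5] at h1
  have h6 := zero_le_logHeight₁ A
  have h7 := zero_le_logHeight₁ B
  have h8 : 0 ≤ (totalWeight K : ℝ) * Real.log 8 :=
    mul_nonneg (Nat.cast_nonneg _) (Real.log_nonneg (by norm_num))
  push_cast at h1
  nlinarith

theorem tele {h : ℕ → ℝ} {L e : ℝ} (hL : 0 ≤ L) (h1 : ∀ n, 4 * h n ≤ h (n + 1) + L)
    (h2 : Tendsto (fun n : ℕ => h n / 4 ^ n) atTop (𝓝 e)) : h 0 ≤ e + L := by
  have h3 : ∀ n : ℕ, h 0 ≤ h n / 4 ^ n + L / 3 * (1 - 1 / 4 ^ n) := by
    intro n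
    induction n with
    | zero => simp
    | succ n ih =>
      have h4 : h n / 4 ^ n ≤ h (n + 1) / 4 ^ (n + 1) + L / 4 ^ (n + 1) := by
        rw [pow_succ, ← add_div, div_le_div_iff₀ (by positivity) (by positivity)]
        have := h1 n
        have h5 : (0 : ℝ) < 4 ^ n := by positivity
        nlinarith
      have h6 : L / 3 * (1 - 1 / 4 ^ (n + 1)) = L / 3 * (1 - 1 / 4 ^ n) + L / 4 ^ (n + 1) := by
        rw [pow_succ]
        field_simp
        ring
      rw [h6]
      linarith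
  have h4 : ∀ n : ℕ, h 0 - L ≤ h n / 4 ^ n := by
    intro n
    have h5 := h3 n
    have h6 : L / 3 * (1 - 1 / 4 ^ n) ≤ L := by
      have h7 : (0 : ℝ) ≤ 1 / 4 ^ n := by positivity
      nlinarith
    linarith
  have h5 := ge_of_tendsto' h2 h4
  linarith

/-- (ZIM) -/
theorem ZIM : ST_ZIM := by
  intro K _ _
  obtain ⟨C, hC0, hC⟩ := dup K
  refine ⟨C, hC0, fun A B hD x y e hxy he => ?_⟩
  have h1 := zero_le_logHeight₁ A
  have h2 := zero_le_logHeight₁ B
  have hL : 0 ≤ C * (1 + logHeight₁ A + logHeight₁ B) := mul_nonneg hC0 (by linarith)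
  have h3 := he 1 le_rfl
  simp only [one_mul, Nat.cast_one, one_pow] at h3
  have h4 := tele (h := fun n => logHeight₁ (x (2 ^ n))) hL (fun n => ?_) h3
  · simpa using h4
  · have hk : 1 ≤ 2 ^ n := Nat.one_le_two_pow
    obtain ⟨-, h5⟩ := KPL_dbl A B (x (2 ^ n)) (y (2 ^ n)) (x (2 * 2 ^ n)) (hxy.yne _ hk)
      (hxy.curve _ hk) (hxy.dblx _ hk)
    have h6 := hC A B (x (2 ^ n)) hD
    rw [← h5] at h6
    have h7 : 2 ^ (n + 1) = 2 * 2 ^ n := by ring
    simp only [h7]
    exact h6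

end Pool.Agent.Helper66.LS5
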